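import Pool.Agent.H629.TA.Stm

set_option autoImplicit false

/-! The multigraph after one step (project TA). -/

namespace Pool.Agent.H25.TA.UP

open Finset Pool.Agent.H629.TA

theorem mult_symm (m : ℕ) (h : Hist m) (a b : ℕ) : mult m h a b = mult m h b a := by
  unfold mult
  simp only [max_comm a b, min_comm a b, eq_comm (a := a) (b := b)]

theorem mult_self (m : ℕ) (h : Hist m) (a : ℕ) : mult m h a a = 0 := by
  unfold mult
  simp

theorem mult_old (m k : ℕ) (h : Hist m) (j : Fin m → ℕ) (a b : ℕ) (ha : a ≤ k) (hb : b ≤ k) :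
    mult m (Function.update h (k + 1) j) a b = mult m h a b := by
  unfold mult
  have h1 : max a b ≠ k + 1 := by
    have := max_le ha hb
    omega
  rw [Function.update_of_ne h1]

theorem mult_new (m k : ℕ) (h : Hist m) (j : Fin m → ℕ) (hk : 2 ≤ k) (a : ℕ) (ha : a ≤ k) :
    mult m (Function.update h (k + 1) j) a (k + 1) = cnt j a := by
  unfold mult cnt
  have h1 : max a (k + 1) = k + 1 := max_eq_right (by omega)
  have h2 : min a (k + 1) = a := min_eq_left (by omega)
  rw [h1, h2, if_neg (by omega), if_neg (by omega), Function.update_self]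

theorem sum_cnt (m k : ℕ) (j : Fin m → ℕ) (hj : ∀ l, j l ∈ Icc 1 k) :
    ∑ a ∈ Icc 1 k, cnt j a = m := by
  unfold cnt
  have h1 := Finset.card_eq_sum_card_fiberwise (s := (univ : Finset (Fin m))) (t := Icc 1 k)
    (f := j) (fun l _ => hj l)
  rw [Finset.card_univ, Fintype.card_fin] at h1
  exact h1.symm

theorem t_UP : S_UP := by
  intro m k h j hk hj
  refine ⟨mult_symm m h, mult_self m h, ?_, ?_, ?_, ?_, ?_⟩
  · intro a ha b hb
    exact mult_old m k h j a b (mem_Icc.mp ha).2 (mem_Icc.mp hb).2
  · intro a ha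
    exact mult_new m k h j hk a (mem_Icc.mp ha).2
  · intro a ha
    unfold deg
    rw [Finset.sum_Icc_succ_top (by omega), mult_new m k h j hk a (mem_Icc.mp ha).2]
    congr 1
    exact Finset.sum_congr rfl fun b hb =>
      mult_old m k h j a b (mem_Icc.mp ha).2 (mem_Icc.mp hb).2
  · unfold deg
    rw [Finset.sum_Icc_succ_top (by omega), mult_self, add_zero]
    refine Eq.trans (Finset.sum_congr rfl fun b hb => ?_) (sum_cnt m k j hj)
    rw [mult_symm, mult_new m k h j hk b (mem_Icc.mp hb).2]
  · intro hV i hi hik l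
    by_cases h1 : i = k + 1
    · subst h1
      rw [Function.update_self]
      simpa using hj l
    · rw [Function.update_of_ne h1]
      exact hV i hi (by omega) l

end Pool.Agent.H25.TA.UP
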